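import Pool.Agent.Helper57.IA.St

/-! # Project IA, module P-NB: non-neighbours in the reservoir -/

set_option autoImplicit false

namespace Pool.Agent.Helper41.IA57

open Finset Pool.Agent.Helper93.IA Pool.Agent.Helper57.IA

private lemma pc_le {X Y : Type} [DecidableEq X] [DecidableEq Y] {ρ : ℝ} (hρ : 0 ≤ ρ) (E : Finset (X × Y))
    (r : X → Y → ℝ) (hr : ∀ x y, 99 / 100 ≤ r x y ∧ r x y ≤ 101 / 100) (x : X) (y : Y) :
    pc ρ E r x y ≤ 101 / 100 * ρ := by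
  unfold pc
  split_ifs
  · have h := mul_le_mul_of_nonneg_left (hr x y).2 hρ
    linarith
  · positivity

private lemma sum_pc_le {Z : Type} (S : Finset Z) (f : Z → ℝ) {t : ℝ} (hf : ∀ z ∈ S, f z ≤ t) :
    ∑ z ∈ S, f z ≤ S.card * t := by
  have h := Finset.sum_le_card_nsmul S f t hf
  rwa [nsmul_eq_mul] at h

private lemma num1 {κ ε ρ η : ℝ} {n m : ℕ} {N s q : ℝ} (hκ : 0 ≤ κ) (hρ : 0 < ρ) (hρ1 : ρ ≤ 1 / 4)
    (hη : 0 < η) (hε : 0 < ε) (hε2 : ε ≤ η / 2) (hmn : (m : ℝ) ≤ n) (hN : N ≤ (κ + ε) * m)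
    (hs : s ≤ N * (101 / 100 * ρ)) (hq : |q - s| ≤ η / 2 * n) :
    q ≤ 51 / 50 * ρ * κ * m + η * n := by
  have hm0 : (0 : ℝ) ≤ m := Nat.cast_nonneg m
  have hn0 : (0 : ℝ) ≤ n := Nat.cast_nonneg n
  have h1 : q ≤ s + η / 2 * n := by linarith [(abs_le.1 hq).2]
  have h2 : N * (101 / 100 * ρ) ≤ (κ + ε) * m * (101 / 100 * ρ) :=
    mul_le_mul_of_nonneg_right hN (by positivity)
  have h3 : 0 ≤ ρ * κ * m := by positivity
  have h4 : ρ * (ε * m) ≤ 1 / 4 * (ε * m) := mul_le_mul_of_nonneg_right hρ1 (by positivity)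
  have h5 : ε * m ≤ η / 2 * n := mul_le_mul hε2 hmn hm0 (by positivity)
  have h6 : (κ + ε) * m * (101 / 100 * ρ) = 101 / 100 * (ρ * κ * m) + 101 / 100 * (ρ * (ε * m)) := by
    ring
  have h7 : 51 / 50 * ρ * κ * m = 51 / 50 * (ρ * κ * m) := by ring
  have h8 : 0 ≤ η * n := by positivity
  have h9 : η / 2 * n = 1 / 2 * (η * n) := by ring
  rw [h7]
  rw [h9] at h5 h1
  linarith

private lemma num2 {ρ η : ℝ} {n : ℕ} {N s q : ℝ} (hρ : 0 < ρ) (hη : 0 < η) (hN : 0 ≤ N)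
    (hs : s ≤ N * (101 / 100 * ρ)) (hq : |q - s| ≤ η / 2 * n) : q ≤ 2 * ρ * N + η * n := by
  have h1 : q ≤ s + η / 2 * n := by linarith [(abs_le.1 hq).2]
  have h2 : 0 ≤ N * ρ := by positivity
  have h3 : 0 ≤ η * n := by positivity
  nlinarith

private lemma agree {X Y : Type} [DecidableEq X] [DecidableEq Y] {B B0 : Finset (X × Y)} {U : Finset X}
    {V : Finset Y} (h : ins B U V = ins B0 U V) {b : X} {c : Y} (hb : b ∈ U) (hc : c ∈ V) :
    (b, c) ∈ B ↔ (b, c) ∈ B0 := by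
  have h1 : (b, c) ∈ ins B U V ↔ (b, c) ∈ ins B0 U V := by rw [h]
  simpa [ins, hb, hc] using h1

theorem hNB : StNB := by
  intro α β γ _ _ _ _ _ _ κ ε g ξ ρ η n m A0 A B0 B C0 C U1 W1 U2 W2 U3 W3 rA rB rC QA QB QC hS
  have hρ := hS.ρ0
  have hη := hS.η0
  have hmn : (m : ℝ) ≤ n := by
    have h1 : U1.card ≤ Fintype.card α := Finset.card_le_univ U1
    rw [hS.lv.c1, hS.lv.nα] at h1
    exact_mod_cast h1
  have hN1 : ∀ b ∈ U2, ((U3.filter fun c => (b, c) ∉ B).card : ℝ) ≤ (κ + ε) * m := by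
    intro b hb
    have h1 : U3.filter (fun c => (b, c) ∉ B) = U3.filter fun c => (b, c) ∉ B0 :=
      Finset.filter_congr fun c hc => not_congr (agree hS.lv.agB hb hc)
    rw [h1]
    exact (hS.lv.nearU.2.1.1 b (Finset.mem_univ b)).2
  have hN2 : ∀ c ∈ U3, ((U2.filter fun b => (b, c) ∉ B).card : ℝ) ≤ (κ + ε) * m := by
    intro c hc
    have h1 : U2.filter (fun b => (b, c) ∉ B) = U2.filter fun b => (b, c) ∉ B0 :=
      Finset.filter_congr fun b hb => not_congr (agree hS.lv.agB hb hc)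
    rw [h1]
    exact (hS.lv.nearU.2.1.2 c (Finset.mem_univ c)).2
  refine ⟨fun a _ b hb => ?_, fun a _ c hc => ?_, fun a _ => ?_, fun a _ => ?_⟩
  · exact num1 hS.κ0 hρ hS.ρ1 hη hS.ε0 hS.ε2 hmn (hN1 b hb)
      (sum_pc_le _ _ fun c _ => pc_le hρ.le _ rC hS.hrC c a) (hS.dev.nC a b)
  · exact num1 hS.κ0 hρ hS.ρ1 hη hS.ε0 hS.ε2 hmn (hN2 c hc)
      (sum_pc_le _ _ fun b _ => pc_le hρ.le _ rA hS.hrA a b) (hS.dev.nA a c)
  · exact num2 hρ hη (Nat.cast_nonneg _) (sum_pc_le _ _ fun b _ => pc_le hρ.le _ rA hS.hrA a b)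
      (hS.dev.wA a)
  · exact num2 hρ hη (Nat.cast_nonneg _) (sum_pc_le _ _ fun c _ => pc_le hρ.le _ rC hS.hrC c a)
      (hS.dev.wC a)

end Pool.Agent.Helper41.IA57
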